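import Pool.Agent.H58.SO.Basic
import Pool.Agent.H58.SO.Targets

/-!
# Case A: two determining levels
-/

set_option autoImplicit false

namespace Pool.Agent.H14.SO

open Pool.Agent.H68.BP Pool.Agent.H58.SF Pool.Agent.H53.GC Pool.Agent.H53.NR Pool.Agent.H58.SO
open Classical

theorem pf_CSA (hSCF : T_SCF) (hCCL : T_CCL) (hCMQ : T_CMQ) : T_CSA := by
  intro σ V X Θ _ M B 𝔸 D h hcore n q γ₀ γ₁ p₀ p₀' p₁ p₁' U hU hty κ J hJ
  by_contra hcon
  push Not at hcon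
  obtain ⟨l₀, hl₀, l₁, hl₁, hne⟩ := hcon
  let S : Set (Fin 6) := {l | κ l = κ l₀}
  let x : Fin n × Fin n → Fin 6 → V := fun p l => if l ∈ S then γ₀ p else γ₁ p
  let lev : Fin n × Fin n → Fin 6 → ℕ := fun _ l => κ l
  let supp : ℕ → Set (Fin 6) := fun k => {l | κ l = k}
  obtain ⟨z, hz⟩ := hSCF V X Θ M B (Fin n × Fin n) (Fin 6) V x lev x supp
    (fun _ _ _ _ _ => Iff.rfl)
  have hxS : ∀ p l, l ∈ S → x p l = γ₀ p := fun p l hl => if_pos hl
  have hxN : ∀ p l, l ∉ S → x p l = γ₁ p := fun p l hl => if_neg hl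
  have hSκ : ∀ l l', κ l = κ l' → (l ∈ S ↔ l' ∈ S) := by
    intro l l' hk
    show κ l = κ l₀ ↔ κ l' = κ l₀
    rw [hk]
  have hxκ : ∀ p l l', κ l = κ l' → x p l = x p l' := by
    intro p l l' hk
    by_cases hl : l ∈ S
    · rw [hxS p l hl, hxS p l' ((hSκ l l' hk).mp hl)]
    · rw [hxN p l hl, hxN p l' (fun h' => hl ((hSκ l l' hk).mpr h'))]
  have heq : ∀ a b l l', z a l = z b l' ↔ κ l = κ l' ∧ x a l = x b l' := by
    intro a b l l'
    exact hz.eq_iff a l b l'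
  have hza : ∀ a b, ZA B κ (z a) (z b) := by
    intro a b
    have hfr : ∀ a b l l', κ l < κ l' →
        B.c (z a l) (z b l') = B.fr (B.vt (z a l)) (B.vt (z b l')) := by
      intro a b l l' hlt
      rw [(hz.col a l b l').2 ?_, hz.typ, hz.typ]
      rintro ⟨⟨l'', h1, h2⟩, _⟩
      have h1' : κ l'' = κ l := h1
      have h2' : κ l'' = κ l' := h2
      omega
    have hlt : ∀ a b l l', κ l < κ l' → z a l < z b l' := by
      intro a b l l' hlt
      rw [hz.lt]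
      exact Or.inl hlt
    refine ⟨fun l l' hk => ⟨?_, ?_⟩, fun l l' hk => ⟨hlt _ _ _ _ hk, hlt _ _ _ _ hk,
      hlt _ _ _ _ hk, hlt _ _ _ _ hk⟩, fun l l' hk => ⟨hfr _ _ _ _ hk, hfr _ _ _ _ hk,
      hfr _ _ _ _ hk, hfr _ _ _ _ hk⟩⟩
    · exact (heq _ _ _ _).mpr ⟨hk, hxκ _ _ _ hk⟩
    · exact (heq _ _ _ _).mpr ⟨hk, hxκ _ _ _ hk⟩
  have hvt : ∀ p, Pu B q p → ∀ l, B.vt (z p l) = B.vt (q p.1) := by
    intro p hp l
    rw [hz.typ]
    by_cases hl : l ∈ S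
    · rw [hxS p l hl]
      exact hU.b₀.typ p hp
    · rw [hxN p l hl]
      exact hU.b₁.typ p hp
  have hmain := hCMQ σ V X Θ M B 𝔸 D h hcore n q γ₀ γ₁ p₀ p₀' p₁ p₁' U hU S z ?_ ?_ ?_
  · rcases hmain with h1 | h1
    · obtain ⟨a1, a2, a3, -⟩ := hU.adm _ hU.m₀
      have h2 := (hJ.det (z p₀) (z p₀') (hvt p₀ a1)
        (fun l => (hvt p₀' a2 l).trans a3) (hza _ _)).mp h1 l₁ hl₁
      have h3 := ((heq _ _ _ _).mp h2).2
      have hl₁' : l₁ ∉ S := fun h' => hne (Eq.symm h')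
      rw [hxN _ _ hl₁', hxN _ _ hl₁'] at h3
      exact hU.e2 h3
    · obtain ⟨a1, a2, a3, -⟩ := hU.adm _ hU.m₁
      have h2 := (hJ.det (z p₁) (z p₁') (fun l => (hvt p₁ a1 l).trans hty)
        (fun l => ((hvt p₁' a2 l).trans a3).trans hty) (hza _ _)).mp h1 l₀ hl₀
      have h3 := ((heq _ _ _ _).mp h2).2
      have hl₀' : l₀ ∈ S := rfl
      rw [hxS _ _ hl₀', hxS _ _ hl₀'] at h3
      exact hU.e4 h3
  · intro l
    have h1 := hCCL V X Θ M B (Fin n × Fin n) (Fin 6) V x lev x supp z l ∅ hz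
      (fun _ _ => rfl) (fun _ _ _ _ h => ⟨rfl, h⟩) (fun _ _ _ _ _ h => h)
    by_cases hl : l ∈ S
    · rw [if_pos hl]
      have h2 : (fun a => x a l) = γ₀ := funext fun p => hxS p l hl
      rw [h2] at h1
      exact h1
    · rw [if_neg hl]
      have h2 : (fun a => x a l) = γ₁ := funext fun p => hxN p l hl
      rw [h2] at h1
      exact h1
  · intro p _
    exact ⟨κ, (hza p p).left⟩
  · intro u _ h0 h1 l l' h2
    obtain ⟨hk, h3⟩ := (heq _ _ _ _).mp h2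
    by_cases hl : l ∈ S
    · rw [hxS _ _ hl, hxS _ _ ((hSκ l l' hk).mp hl)] at h3
      exact h0 h3
    · rw [hxN _ _ hl, hxN _ _ (fun h' => hl ((hSκ l l' hk).mpr h'))] at h3
      exact h1 h3

end Pool.Agent.H14.SO
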