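import Pool.Agent.H58.SO.Basic
import Pool.Agent.H58.SO.Targets

/-!
# Iteration of a pure operation of the template
-/

set_option autoImplicit false

namespace Pool.Agent.H14.SO

open Pool.Agent.H68.BP Pool.Agent.H58.SF Pool.Agent.H53.GC Pool.Agent.H53.NR Pool.Agent.H58.SO
open Classical

section iter

variable {V X Θ : Type} {M : ℕ} [LinearOrder V] {σ : Sig}

/-- the iterates -/
noncomputable def itH (H : (Fin 2 → Te X Θ) → Te X Θ) : (n : ℕ) → (Fin (n + 1) → Te X Θ) → Te X Θ
  | 0 => fun z => z 0
  | n + 1 => fun z => H ![z 0, itH H n (fun i => z i.succ)]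

theorem itH_pur (B : Bs V X Θ M) (𝔸 : Str σ V) (D : Set Θ) (H : (Fin 2 → Te X Θ) → Te X Θ)
    (hH : PurT B 𝔸 D H) : ∀ n, PurT B 𝔸 D (itH H n) := by
  intro n
  induction n with
  | zero =>
    refine ⟨?_, ?_, ?_⟩
    · intro s q hq _
      exact hq 0
    · intro z i _
      rw [show i = 0 from Fin.ext (by omega)]
      rfl
    · intro z _ _ _ h4
      refine ⟨h4 0, ⟨fun h i => ?_, fun h => h 0⟩⟩
      rw [show i = 0 from Fin.ext (by omega)]
      exact h
  | succ n ih =>
    have key : ∀ z : Fin (n + 1 + 1) → Te X Θ, (∀ i j, (z i).1 = (z j).1) →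
        (itH H n (fun i => z i.succ)).1 = (z 0).1 := by
      intro z hz
      rw [ih.typ (fun i => z i.succ) 0 (fun j => hz _ _)]
      exact hz _ _
    refine ⟨?_, ?_, ?_⟩
    · intro s q hq hty
      let q2 : Fin 2 → Fin (arP σ M s) × Fin (arP σ M s) → Te X Θ :=
        ![q 0, fun e => itH H n (fun i => q i.succ e)]
      have h1 := hH.rel s q2 ?_ ?_
      · have h2 : (fun e => H (fun i => q2 i e)) = fun e => itH H (n + 1) (fun i => q i e) := by
          funext e
          show H (fun i => q2 i e) = H ![q 0 e, itH H n (fun i => q i.succ e)]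
          congr 1
          funext i
          refine Fin.cases rfl (fun j => ?_) i
          refine Fin.cases rfl (fun j => j.elim0) j
        rwa [h2] at h1
      · intro i
        refine Fin.cases (hq 0) (fun j => ?_) i
        refine Fin.cases ?_ (fun j => j.elim0) j
        exact ih.rel s (fun i => q i.succ) (fun i => hq _) (fun i j e => hty _ _ _)
      · have h3 : ∀ i e, (q2 i e).1 = (q 0 e).1 := by
          intro i e
          refine Fin.cases rfl (fun j => ?_) i
          refine Fin.cases ?_ (fun j => j.elim0) j
          exact key (fun i => q i e) (fun i j => hty i j e)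
        intro i j e
        rw [h3, h3]
    · intro z i hz
      have hz' : ∀ i j, (z i).1 = (z j).1 := fun a b => (hz a).trans (hz b).symm
      have h1 := hH.typ ![z 0, itH H n (fun i => z i.succ)] 0 ?_
      · show (H ![z 0, itH H n (fun i => z i.succ)]).1 = _
        rw [h1]
        exact hz 0
      · intro j
        refine Fin.cases rfl (fun j => ?_) j
        refine Fin.cases ?_ (fun j => j.elim0) j
        exact key z hz'
    · intro z h1 h2 h3 h4
      have hk := key z h1
      have hi := ih.ker (fun i => z i.succ) (fun i j => h1 _ _) (fun i => h2 _) (fun i => h3 _)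
        (fun i => h4 _)
      have hh := hH.ker ![z 0, itH H n (fun i => z i.succ)] ?_ ?_ ?_ ?_
      · refine ⟨hh.1, ?_⟩
        show (H ![z 0, itH H n (fun i => z i.succ)]).2 = some none ↔ _
        rw [hh.2]
        constructor
        · intro h i
          refine Fin.cases (h 0) (fun j => ?_) i
          exact (hi.2.mp (h 1)) j
        · intro h i
          refine Fin.cases (h 0) (fun j => ?_) i
          refine Fin.cases ?_ (fun j => j.elim0) j
          exact hi.2.mpr (fun i => h _)
      · have h3' : ∀ i : Fin 2, ((![z 0, itH H n (fun i => z i.succ)] : Fin 2 → Te X Θ) i).1 =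
            (z 0).1 := by
          intro i
          refine Fin.cases rfl (fun j => ?_) i
          refine Fin.cases ?_ (fun j => j.elim0) j
          exact hk
        intro i j
        rw [h3', h3']
      · intro i
        refine Fin.cases (h2 0) (fun j => ?_) i
        refine Fin.cases ?_ (fun j => j.elim0) j
        show (itH H n (fun i => z i.succ)).1.1 ∉ D
        rw [hk]
        exact h2 0
      · intro i
        refine Fin.cases (h3 0) (fun j => ?_) i
        refine Fin.cases ?_ (fun j => j.elim0) j
        show (itH H n (fun i => z i.succ)).1.2 ∉ D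
        rw [hk]
        exact h3 0
      · intro i
        refine Fin.cases (h4 0) (fun j => ?_) i
        refine Fin.cases ?_ (fun j => j.elim0) j
        exact hi.1

end iter

theorem pf_ITT : T_ITT := by
  intro σ V X Θ _ M B 𝔸 D H hH p hp
  obtain ⟨n, rfl⟩ : ∃ n, p = n + 1 := ⟨p - 1, by omega⟩
  exact ⟨itH H n, itH_pur B 𝔸 D H hH n⟩

end Pool.Agent.H14.SO
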